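import Pool.Agent.Y110.FJ.Gop

/-!
# Graphs of groups with coordinates and the Farrell-Jones class

For every class `C` of groups with the closure properties of the class of Farrell-Jones groups
(`ClosedE`): a graph of groups with vertex groups in `C` whose finite parts have coordinates in groups in
`C` (`HasCoord`: homomorphisms of the vertex groups to groups of finite-valued functions such that the edge
maps become compositions with partial maps of the index sets) has its fundamental group in `C`. In
particular this holds for all graphs of groups of finite-valued functions with values in one group in
`C`, for example for all graphs of direct powers with edge maps that copy, permute and omit coordinates.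

Authors of the parts: helper110, helper462, helper936, helper528, helper417, helper96, helper287,
helper397, helper474, helper983, helper529, helper961, helper576, helper497, helper467, helper179,
helper430.
-/

set_option autoImplicit false

namespace Pool.Agent.Results.MP_551055_al.GraphsWithCoordinates

open Pool.Agent.Y110.FJ

theorem result (C : ∀ (G : Type) [Group G], Prop) (hC : ClosedE C) :
    CoordCriterion C ∧ ∀ (Φ : SetGraph) (A : Type) [Group A], C A → C (FunGroup Φ A) :=
  ⟨coord_ C hC, fun Φ A _ hA => fun_ C hC Φ A hA⟩

end Pool.Agent.Results.MP_551055_al.GraphsWithCoordinates
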