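import Pool.Agent.Y75.EK.Struct

/-!
Projective modules over integral group rings and orthogonally indecomposable lattices.

(1) Let `G` be any group. Every finitely generated projective `ℤG`-module is, after a finitely
generated free module has been added to it, the direct sum of finitely many modules which are
induced from finitely generated subgroups `K` of `G`, from direct summands of free `ℤK`-modules
which are orthogonally indecomposable for the standard inner product and which are generated by
vectors of norm at most three.

(2) Let `G` be torsion-free. All finitely generated projective modules over the group rings of the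
subgroups of `G` are stably free if and only if this is true for the direct summands of free modules
with these two properties and of infinite rank over `ℤ`.

Idea of the proof. Let `P` be a direct summand of `(ℤG)^n` and `t` one of its generators, the sum of
the vectors `± g e_i` of norm one. In `(ℤG)^(n+1)` the summand which is generated by `P` and by
`f - w`, for the new basis vector `f`, is isomorphic to `P + ℤG`; it contains the vector `t + f - w`,
and so long generators can be replaced by short ones, one term at a time. Then one takes the
decomposition of the lattice into indecomposable ones (Eichler and Kneser, in infinite rank); they are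
permuted by `G`, and their stabilisers are the groups `K`. The orthogonal projections do not
increase norms. A piece of finite rank has a finite stabiliser.
-/

set_option autoImplicit false

namespace Pool.Agent.Results.MP_551055_al.IndecomposableLattices

open Pool.Agent.Y75.EK

theorem result :
    (∀ (G : Type) [Group G] (P : Type) [AddCommGroup P] [Module (MonoidAlgebra ℤ G) P]
      [Module.Finite (MonoidAlgebra ℤ G) P] [Module.Projective (MonoidAlgebra ℤ G) P],
      SumOfNarrow G P) ∧
    (∀ (G : Type) [Group G], (∀ (g : G) (n : ℕ), n ≠ 0 → g ^ n = 1 → g = 1) →
      (AllStablyFree G ↔ NarrowStablyFree G)) := by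
  refine ⟨fun G _ P _ _ _ _ => ?_, fun G _ hG => ⟨?_, ?_⟩⟩
  · obtain ⟨m, k, K, n, Q, h, h'⟩ := exists_structure G P
    exact ⟨m, k, K, n, Q, fun i => ⟨(h i).1, ⟨(h i).2.1, (h i).2.2.1, (h i).2.2.2.1⟩,
      (h i).2.2.2.2⟩, h'⟩
  · intro h H _ f hf _ n P hP _
    obtain ⟨h1, h2⟩ := summand_fg_proj P hP.1
    exact h H f hf P
  · intro h H _ f hf P _ _ _ _
    exact reduction_short G hG (fun H _ f hf hH n P h1 h2 h3 h4 =>
      h H f hf hH n P ⟨h1, h3, h4⟩ h2) H f hf P

end Pool.Agent.Results.MP_551055_al.IndecomposableLattices
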