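import Pool.Agent.Y75.Th.Idem4N

set_option autoImplicit false

/-! Idempotent matrices `E` over the integral group ring of an arbitrary group whose skew part
`E - E*` is small (for instance `‖E‖ < √6`) have free image, and are triangular up to a
simultaneous permutation if `E - E*` is a little smaller (for instance `‖E‖ < √5`). -/

namespace Pool.Agent.Results.MP_551055_al.SmallSkewIdempotents

open Pool.Agent.Y75.Th TH57.Thr TH6.LF

theorem result :
    (∀ (Γ : Type) [Group Γ] (n : ℕ) (E : Matrix (Fin n) (Fin n) (MonoidAlgebra ℤ Γ)),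
      E * E = E →
      ((∀ i, ∑ j, ∑ᶠ g : Γ, ((E i j).coeff g - (E j i).coeff g⁻¹) ^ 2 ≤ 4) ∨
       (∃ c : ℝ, 0 < c ∧ c < Real.sqrt 6 ∧
          ∀ x : Fin n → MonoidAlgebra ℝ Γ,
            ∑ j, ∑ᶠ g : Γ, (∑ i, x i * MonoidAlgebra.mapRingHom Γ (Int.castRingHom ℝ)
              (E i j)).coeff g ^ 2
              ≤ c ^ 2 * ∑ i, ∑ᶠ g : Γ, (x i).coeff g ^ 2)) →
      (∃ (U : (Matrix (Fin n) (Fin n) (MonoidAlgebra ℤ Γ))ˣ) (S : Finset (Fin n)),
        E * (U : Matrix (Fin n) (Fin n) (MonoidAlgebra ℤ Γ)) =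
          (U : Matrix (Fin n) (Fin n) (MonoidAlgebra ℤ Γ)) *
            Matrix.diagonal (fun i => if i ∈ S then (1 : MonoidAlgebra ℤ Γ) else 0)) ∧
      ∀ (P : Type) [AddCommGroup P] [Module (MonoidAlgebra ℤ Γ) P],
        Nonempty (P ≃ₗ[MonoidAlgebra ℤ Γ] LinearMap.range E.vecMulLinear) →
        Module.Free (MonoidAlgebra ℤ Γ) P) ∧
    (∀ (Γ : Type) [Group Γ] (n : ℕ) (E : Matrix (Fin n) (Fin n) (MonoidAlgebra ℤ Γ)),
      E * E = E →
      ((∀ i, ∑ j, ∑ᶠ g : Γ, ((E i j).coeff g - (E j i).coeff g⁻¹) ^ 2 ≤ 3) ∨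
       (∃ c : ℝ, 0 < c ∧ c < Real.sqrt 5 ∧
          ∀ x : Fin n → MonoidAlgebra ℝ Γ,
            ∑ j, ∑ᶠ g : Γ, (∑ i, x i * MonoidAlgebra.mapRingHom Γ (Int.castRingHom ℝ)
              (E i j)).coeff g ^ 2
              ≤ c ^ 2 * ∑ i, ∑ᶠ g : Γ, (x i).coeff g ^ 2)) →
      ∃ σ : Equiv.Perm (Fin n), (∀ i j, j < i → E (σ i) (σ j) = 0) ∧
        ∀ i, E (σ i) (σ i) = 0 ∨ E (σ i) (σ i) = 1) ∧
    (∀ (Γ : Type) [Group Γ], ∃ E : Matrix (Fin 4) (Fin 4) (MonoidAlgebra ℤ Γ),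
      E * E = E ∧
      (∀ i, ∑ j, ∑ᶠ g : Γ, ((E i j).coeff g - (E j i).coeff g⁻¹) ^ 2 ≤ 4) ∧
      ∀ σ : Equiv.Perm (Fin 4), ∃ i j, j < i ∧ E (σ i) (σ j) ≠ 0) := by
  refine ⟨?_, ?_, ?_⟩
  · intro Γ _ n E hE h
    have hrow : ∀ i, ∑ j, nsq (E i j - bar (E j i)) ≤ 4 := by
      rcases h with h | ⟨c, h0, h1, h2⟩
      · intro i
        have := h i
        simp only [finsum_nsq] at this
        exact this
      · have h3 : c ^ 2 < 6 := by
          have h4 : c ^ 2 < Real.sqrt 6 ^ 2 := by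
            have := Real.sqrt_nonneg 6
            nlinarith
          rwa [Real.sq_sqrt (by norm_num)] at h4
        exact idem_rows4 E hE c h0 h3 (normLE_fin n _ c h2)
    obtain ⟨U, S, hU⟩ := idem_nf4 E hE hrow
    refine ⟨⟨U, S, hU⟩, ?_⟩
    intro P _ _ ⟨e⟩
    have := free_of_conj E U S hU
    exact Module.Free.of_equiv e.symm
  · intro Γ _ n E hE h
    have hrow : ∀ i, ∑ j, nsq (E i j - bar (E j i)) ≤ 3 := by
      rcases h with h | ⟨c, h0, h1, h2⟩
      · intro i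
        have := h i
        simp only [finsum_nsq] at this
        exact this
      · have h3 : c ^ 2 < 5 := by
          have h4 : c ^ 2 < Real.sqrt 5 ^ 2 := by
            have := Real.sqrt_nonneg 5
            nlinarith
          rwa [Real.sq_sqrt (by norm_num)] at h4
        exact idem_rows E hE c h0 h3 (normLE_fin n _ c h2)
    obtain ⟨f, hf, h1, h2⟩ := idem_nf E hE hrow
    exact perm_form n E f hf h1 h2
  · intro Γ _
    refine ⟨exE Γ, exE_idem, ?_, exE_not⟩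
    intro i
    have := exE_row (Γ := Γ) i
    simp only [finsum_nsq]
    exact this

end Pool.Agent.Results.MP_551055_al.SmallSkewIdempotents
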